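import Pool.Agent.helper51.RMX.Spec

set_option autoImplicit false

namespace Pool.Agent.RMX

open Pool.Agent.RB NumberField IsDedekindDomain Module
open scoped nonZeroDivisors Real Classical IsMulCommutative

/-- the final computation -/
theorem CM1_fin {n m b t t' s q e d₁ d₂ w J I0 I1 IK IL : ℕ} {PN PL PS : ℂ} {ε ε' z₀ : ℤ}
    (hε' : ε' = 1 ∨ ε' = -1) (ht : t = t' + s)
    (hK : 2 * (PN * PL) = (ε : ℂ) * 2 ^ (n * (m + b) + t) * (IK : ℂ))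
    (hL : 2 * PL = (ε' : ℂ) * 2 ^ (n * b + t') * (IL : ℂ))
    (hD : d₁ * IK = d₂ * (I0 * I1)) (hI1 : I1 = q ^ e * IL) (hI0 : I0 = J * w) (hIL : IL ≠ 0)
    (hS : PS = (z₀ : ℂ)) :
    (d₁ : ℂ) * (PN * PS) = (2 ^ n) ^ m * ((ε * ε' * 2 ^ s * d₂ * w * q ^ e * z₀ : ℤ) : ℂ) * (J : ℂ) := by
  have hD' : (d₁ : ℂ) * (IK : ℂ) = (d₂ : ℂ) * (((J : ℂ) * (w : ℂ)) * ((q : ℂ) ^ e * (IL : ℂ))) := by
    rw [hI1, hI0] at hD
    exact_mod_cast hD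
  have hIL' : (IL : ℂ) ≠ 0 := by exact_mod_cast hIL
  have h2 : (2 : ℂ) ^ (n * b + t') ≠ 0 := pow_ne_zero _ two_ne_zero
  have he' : (ε' : ℂ) * (ε' : ℂ) = 1 := by
    rcases hε' with h | h <;> rw [h] <;> norm_num
  have h3 : (2 : ℂ) ^ (n * (m + b) + t) = (2 ^ n) ^ m * 2 ^ s * 2 ^ (n * b + t') := by
    rw [ht, ← pow_mul, ← pow_add, ← pow_add]
    ring_nf
  have h4 : (d₁ : ℂ) * (PN * (2 * PL)) =
      (d₁ : ℂ) * ((ε : ℂ) * 2 ^ (n * (m + b) + t) * (IK : ℂ)) := by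
    rw [← hK]; ring
  rw [hL, h3] at h4
  have h5 : ((d₁ : ℂ) * PN * (ε' : ℂ)) * (2 ^ (n * b + t') * (IL : ℂ)) =
      ((ε : ℂ) * ((2 ^ n) ^ m * 2 ^ s) * ((d₂ : ℂ) * (((J : ℂ) * (w : ℂ)) * (q : ℂ) ^ e))) *
        (2 ^ (n * b + t') * (IL : ℂ)) := by
    calc ((d₁ : ℂ) * PN * (ε' : ℂ)) * (2 ^ (n * b + t') * (IL : ℂ))
        = (d₁ : ℂ) * (PN * ((ε' : ℂ) * 2 ^ (n * b + t') * (IL : ℂ))) := by ring
      _ = (d₁ : ℂ) * ((ε : ℂ) * ((2 ^ n) ^ m * 2 ^ s * 2 ^ (n * b + t')) * (IK : ℂ)) := h4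
      _ = (ε : ℂ) * ((2 ^ n) ^ m * 2 ^ s * 2 ^ (n * b + t')) * ((d₁ : ℂ) * (IK : ℂ)) := by ring
      _ = _ := by rw [hD']; ring
  have h6 := mul_right_cancel₀ (mul_ne_zero h2 hIL') h5
  have h7 : (d₁ : ℂ) * PN = (ε : ℂ) * ((2 ^ n) ^ m * 2 ^ s) * ((d₂ : ℂ) * (((J : ℂ) * (w : ℂ)) * (q : ℂ) ^ e)) * (ε' : ℂ) := by
    rw [← h6, mul_assoc, he', mul_one]
  rw [hS, ← mul_assoc, h7]
  push_cast
  ring

/-- the anti-invariance of the divisors of `Ml` -/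
theorem CM1_le {K : Type} [Field K] [NumberField K] (c : K ≃+* K) (hc : ∀ x : K, c (c x) = x)
    (V T : Set (HOS K)) : dM c V T ≤ DV c V := by
  rintro D ⟨x, hx, hD⟩
  refine ⟨fun P hP => ?_, fun P => ?_⟩
  · rw [hD P]; exact hx.2.1 P hP
  · rw [hD P, hD (act c P)]
    have h1 : c (x : K) = (x : K)⁻¹ := by
      have h : (x : K) * c x = 1 := hx.1
      exact eq_inv_of_mul_eq_one_right h
    have h2 := ((ORD K).2.2.2.2.2.1 c P (c (x : K))).2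
    rw [hc, h1, ord_inv] at h2
    exact h2

theorem CM1_mem_odd {G : Type} [Group G] [Finite G] (c : G) (ψ : G →* ℂˣ) : ψ ∈ odd c ↔ ψ c = -1 := by
  simp [odd]

theorem CM1_mem_Psi {G : Type} [Group G] [Finite G] (B : Subgroup G) (c : G) (ψ : G →* ℂˣ) :
    ψ ∈ Psi B c ↔ (∀ b ∈ B, ψ b = 1) ∧ ψ c = -1 := by
  simp [Psi]

/-- the set of new odd characters is stable -/
theorem CM1_stab {G : Type} [Group G] [Finite G] [DecidableEq (G →* ℂˣ)] (c : G) (hc : c * c = 1)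
    (Δ : Subgroup G) (ψ : G →* ℂˣ) (hψ : ψ ∈ odd c \ Psi Δ c) (i : ℕ) (hi : Nat.Coprime i (Nat.card G)) :
    ψ ^ i ∈ odd c \ Psi Δ c := by
  have h1 : ψ c = -1 := (CM1_mem_odd c ψ).mp (Finset.mem_sdiff.mp hψ).1
  have h2 : ¬ ∀ b ∈ Δ, ψ b = 1 := fun h =>
    (Finset.mem_sdiff.mp hψ).2 ((CM1_mem_Psi Δ c ψ).mpr ⟨h, h1⟩)
  have hne : c ≠ 1 := by
    intro h
    rw [h, map_one] at h1
    have h3 : ((1 : ℂˣ) : ℂ) = ((-1 : ℂˣ) : ℂ) := congrArg _ h1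
    norm_num at h3
  have hord : orderOf c = 2 := orderOf_eq_prime (by rw [pow_two]; exact hc) hne
  have heven : 2 ∣ Nat.card G := hord ▸ orderOf_dvd_natCard c
  have hodd : Odd i := by
    rw [← Nat.coprime_two_right]
    exact Nat.Coprime.coprime_dvd_right heven hi
  refine Finset.mem_sdiff.mpr ⟨(CM1_mem_odd c _).mpr ?_, fun h => h2 ?_⟩
  · rw [MonoidHom.pow_apply, h1, hodd.neg_one_pow]
  · intro b hb
    have h3 : ψ b ^ i = 1 := by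
      have := ((CM1_mem_Psi Δ c _).mp h).1 b hb
      rwa [MonoidHom.pow_apply] at this
    have h4 : ψ b ^ Nat.card G = 1 := by rw [← map_pow, pow_card_eq_one', map_one]
    have h5 : orderOf (ψ b) ∣ Nat.gcd i (Nat.card G) :=
      Nat.dvd_gcd (orderOf_dvd_of_pow_eq_one h3) (orderOf_dvd_of_pow_eq_one h4)
    rw [hi] at h5
    exact orderOf_eq_one_iff.mp (Nat.dvd_one.mp h5)

/-- the factor from `S` -/
theorem CM1_LST {F K : Type} [Field F] [NumberField F] [Field K] [NumberField K] [Algebra F K]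
    (Lf : ((K ≃ₐ[F] K) →* ℂˣ) → ℂ → ℂ) (S T : Finset (HOS F)) (ψ : (K ≃ₐ[F] K) →* ℂˣ) :
    LST Lf S T ψ = LST Lf ∅ T ψ * ∏ p ∈ S, (1 - chv ψ p) := by
  rw [LST, LST, Finset.prod_empty, mul_one]
  ring

theorem CM1 (hEXF : EXF_stmt) (hDCX : DCX_stmt) (hNDV : NDV_stmt) (hIVX : IVX_stmt) (hVWX : VWX_stmt) (hRMT : RMT_stmt) (hSIN : SIN_stmt) : CM1_stmt := by
  intro F L K _ _ _ _ _ _ _ _ _ _ _ _ _ _ _ c hcK hcL q hq hq2 hcard Lf hLf S T hT htors V hV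
  set Δ : Subgroup (K ≃ₐ[F] K) := (AlgEquiv.restrictNormalHom L : (K ≃ₐ[F] K) →* (L ≃ₐ[F] L)).ker with hΔ
  have hcc : ∀ x : K, (c : K ≃+* K) ((c : K ≃+* K) x) = x := by
    intro x
    have h1 : c (c x) = x := by rw [hcK, hcK]; exact IsCMField.complexConj_apply_apply K x
    exact h1
  have hc2 : c * c = 1 := AlgEquiv.ext hcc
  have hqodd : Odd q := hq.odd_of_ne_two hq2
  obtain ⟨hfin, hle, hIK, ε, hε, hK⟩ := hEXF F K c hcK Lf hLf T hT htors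
  obtain ⟨hR1, hR2⟩ := hRMT F L K c hc2 (hcard ▸ hqodd)
  obtain ⟨hVL1, hVL2, hVL3, hVL4⟩ := VLU L K
  obtain ⟨hLf', hLST⟩ := r_ltr F L K Lf hLf
  have hTL : ∀ P : HOS L, P.under (𝓞 F) ∈ T →
      P ∉ Rm ((AlgEquiv.restrictNormalHom L c : L ≃ₐ[F] L) : L ≃+* L) := by
    intro P hP hPR
    obtain ⟨P', hP'⟩ := hVL2 P
    have h1 : P'.under (𝓞 F) ∈ T := by rw [← hVL4 F P', hP']; exact hP
    exact hT P' h1 (hR1 P' (by rw [hP']; exact hPR))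
  obtain ⟨-, -, hIL, ε', hε', hL⟩ := hEXF F L (AlgEquiv.restrictNormalHom L c) hcL _ hLf' T hTL
    (r_tck F L K T htors)
  obtain ⟨hN1, hN2, hN3, hN4⟩ := hNDV F K Δ
  obtain ⟨hN5, hN6⟩ := hN4 c {p : HOS F | p ∉ T} (T : Set (HOS F))
  obtain ⟨d₁, d₂, hd₁, hd₂, hD⟩ := hDCX (Dv K) (DV (c : K ≃+* K) {P : HOS K | P.under (𝓞 F) ∉ T})
    (dM (c : K ≃+* K) {P : HOS K | P.under (𝓞 F) ∉ T} {P : HOS K | P.under (𝓞 F) ∈ T}) (Nd Δ) q hqodd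
    hle hN5 hN6 (fun a => by rw [hN2, hcard]) hIK
  have hd0 : d₁ ≠ 0 := by rintro rfl; exact absurd hd₁ (by decide)
  have hprod := mul_ne_zero hd0 hIK
  rw [hD] at hprod
  have hI01 := right_ne_zero_of_mul hprod
  have hI0 := left_ne_zero_of_mul hI01
  have hI1 := right_ne_zero_of_mul hI01
  obtain ⟨e, he⟩ := hIVX F L K c hcK q hq hcard T htors hI1
  have hVW : V ⊆ {P : HOS K | P.under (𝓞 F) ∉ T} := fun P hP => hV P hP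
  obtain ⟨w, hw⟩ := hVWX K (c : K ≃+* K) V {P : HOS K | P.under (𝓞 F) ∉ T} {P : HOS K | P.under (𝓞 F) ∈ T}
    (Nd Δ).ker hVW
  refine ⟨CM1_le _ hcc _ _, fun h0 => hI0 (by rw [hw, h0, zero_mul]), d₁, ?_⟩
  obtain ⟨z₀, hz₀⟩ := hSIN F K (odd c \ Psi Δ c) (fun ψ hψ i hi => CM1_stab c hc2 Δ ψ hψ i hi) S
  have hPsi := (PSI F L K c (LST Lf ∅ T)).1
  have hPsi2 := (PSI F L K c (fun _ => 2)).1
  rw [Finset.prod_const, Finset.prod_const] at hPsi2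
  have hcd : (odd (AlgEquiv.restrictNormalHom L c : L ≃ₐ[F] L)).card = (Psi Δ c).card := by
    have h1 : (2 : ℕ) ^ (odd (AlgEquiv.restrictNormalHom L c : L ≃ₐ[F] L)).card = 2 ^ (Psi Δ c).card := by
      exact_mod_cast hPsi2
    exact Nat.pow_right_injective le_rfl h1
  have hsub : Psi Δ c ⊆ odd c := by
    intro ψ hψ
    exact (CM1_mem_odd c ψ).mpr ((CM1_mem_Psi Δ c ψ).mp hψ).2
  have hKp : ∏ χ ∈ odd c, LST Lf ∅ T χ = (∏ χ ∈ odd c \ Psi Δ c, LST Lf ∅ T χ) * ∏ χ ∈ Psi Δ c, LST Lf ∅ T χ :=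
    (Finset.prod_sdiff hsub).symm
  have hcdK : (odd c).card = (odd c \ Psi Δ c).card + (Psi Δ c).card :=
    (Finset.card_sdiff_add_card_eq_card hsub).symm
  have hLp : ∏ χ ∈ odd (AlgEquiv.restrictNormalHom L c : L ≃ₐ[F] L),
      LST (fun ψ : (L ≃ₐ[F] L) →* ℂˣ => Lf (ψ.comp (AlgEquiv.restrictNormalHom L : (K ≃ₐ[F] K) →* (L ≃ₐ[F] L)))) ∅ T χ
      = ∏ χ ∈ Psi Δ c, LST Lf ∅ T χ := by
    rw [← hPsi]
    exact Finset.prod_congr rfl fun χ _ => hLST ∅ T χ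
  rw [hKp, hcdK] at hK
  rw [hLp, hcd] at hL
  obtain ⟨s, hs⟩ := Nat.exists_eq_add_of_le (hR2 hfin)
  refine ⟨ε * ε' * 2 ^ s * d₂ * w * q ^ e * z₀, hd₁, ?_⟩
  have hS2 : ∏ ψ ∈ odd c \ Psi Δ c, LST Lf S T ψ =
      (∏ χ ∈ odd c \ Psi Δ c, LST Lf ∅ T χ) * ∏ ψ ∈ odd c \ Psi Δ c, ∏ p ∈ S, (1 - chv ψ p) := by
    rw [← Finset.prod_mul_distrib]
    exact Finset.prod_congr rfl fun ψ _ => CM1_LST Lf S T ψ
  rw [hS2]
  exact CM1_fin hε' hs hK hL hD he hw hIL hz₀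

end Pool.Agent.RMX
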